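import Pool.Agent.V5helper59.Wish.E5

/-!
# The product inequality for determinants of disjoint diagonal blocks of a Wishart matrix

For `X` with the Wishart law `W_p(α, Σ)`, real `α > p - 1`, diagonal blocks `X_11, ..., X_dd` and real
exponents `ν_i ≥ 0`, we prove `E ∏ |X_ii|^{ν_i} ≥ ∏ E |X_ii|^{ν_i}`.

Idea of the proof. By induction on the number of blocks, and by whitening with a block triangular
factor of `Σ`, it is enough to show, for `W ~ W_p(α, I)` with first diagonal block `W_A`, that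
`E |W_A|^ν F ≥ E |W_A|^ν E F`, where `F = ∏_j (det (R_j + C_j W C_jᵀ) + δ_j)^{ν_j}`. Peeling off one row
and column at a time, we may take `A` of size one. Given the complementary block, `F` is a function
of a vector `r` in a half space of (real) dimension `n = α` with weight `y^k e^{-|r|²/2}`, every factor
of which is a quadratic polynomial whose Laplacian is nonnegative (because of a trace inequality),
up to the exponent. Integration by parts shows that `η ↦ η^{n/2+ν} ∫ φ(r) |r|^{2ν} y^k e^{-η|r|²/2} dr` is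
nonincreasing in `η`, where `φ` is the product of the factors; comparing with `φ = 1` and integrating
over `η` gives the inequality. When there is only one factor, no condition on the sizes is needed:
one uses the monotonicity of `t ↦ E h(t z + B g)` for Gaussian `g` and Chebyshev's inequality.
-/

set_option autoImplicit false

namespace Pool.Agent.Results.MP_9d9c13_pr.WishartProductInequality

open MeasureTheory Matrix Set
open scoped BigOperators ENNReal

/-- The real symmetric matrix with given entries. A point `x` of `Sym2 ι → ℝ` gives one real number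
for every unordered pair `s(i, j)` of indices, `i = j` allowed, that is for every entry on or above the
diagonal. Lebesgue measure `dX` on the symmetric matrices is `volume` on `Sym2 ι → ℝ`. -/
def symMat {ι : Type} (x : Sym2 ι → ℝ) : Matrix ι ι ℝ := Matrix.of fun i j => x s(i, j)

/-- The cone of positive definite matrices. -/
def posCone (ι : Type) [Fintype ι] : Set (Sym2 ι → ℝ) := {x | (symMat x).PosDef}

/-- The multivariate gamma function `Γ_p(β)`, the integral over the cone of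
`|X|^(β - (p + 1) / 2) etr(-X)`, where `p` is the number of indices. -/
noncomputable def mvGamma (ι : Type) [Fintype ι] [DecidableEq ι] (β : ℝ) : ℝ :=
  ∫ x in posCone ι, (symMat x).det ^ (β - ((Fintype.card ι : ℝ) + 1) / 2) *
    Real.exp (-(symMat x).trace)

/-- The Wishart density `f_{α, Σ}`, which is
`|X|^(α / 2 - (p + 1) / 2) etr(-(Σ⁻¹ / 2) X) / (|2 Σ|^(α / 2) Γ_p(α / 2))` on the cone and `0` off it. -/
noncomputable def wishartDensity {ι : Type} [Fintype ι] [DecidableEq ι] (α : ℝ) (S : Matrix ι ι ℝ)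
    (x : Sym2 ι → ℝ) : ℝ :=
  (posCone ι).indicator (fun x =>
    (symMat x).det ^ (α / 2 - ((Fintype.card ι : ℝ) + 1) / 2) *
      Real.exp (-(((1 / 2 : ℝ) • S⁻¹) * symMat x).trace) /
        (((2 : ℝ) • S).det ^ (α / 2) * mvGamma ι (α / 2))) x

/-- The Wishart law `W_p(α, Σ)`. -/
noncomputable def wishart {ι : Type} [Fintype ι] [DecidableEq ι] (α : ℝ) (S : Matrix ι ι ℝ) :
    Measure (Sym2 ι → ℝ) :=
  volume.withDensity fun x => ENNReal.ofReal (wishartDensity α S x)

/-- The indices of a matrix partitioned into consecutive blocks of sizes `p 0, p 1, ...`: the pairs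
of a block number `i` and a position in block `i`. -/
abbrev Idx {d : ℕ} (p : Fin d → ℕ) : Type := (i : Fin d) × Fin (p i)

/-- The diagonal block `X_ii`. -/
def diagBlock {d : ℕ} {p : Fin d → ℕ} (i : Fin d) (X : Matrix (Idx p) (Idx p) ℝ) :
    Matrix (Fin (p i)) (Fin (p i)) ℝ :=
  Matrix.of fun k l => X ⟨i, k⟩ ⟨i, l⟩

open Pool.Agent.V5helper59.Wish

lemma symMat_eq {ι : Type} (x : Sym2 ι → ℝ) : symMat x = toM x := rfl

section aux
variable {ι : Type} [Fintype ι] [DecidableEq ι]

lemma gamma_lint {n : ℝ} (hn : (Fintype.card ι : ℝ) - 1 < n) :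
    ENNReal.ofReal (mvGamma ι (n / 2)) = ∫⁻ x : Sym2 ι → ℝ, wS n ((1 / 2 : ℝ) • (1 : Matrix ι ι ℝ))⁻¹ x := by
  have hP : ((1 / 2 : ℝ) • (1 : Matrix ι ι ℝ))⁻¹ = (2 : ℝ) • (1 : Matrix ι ι ℝ) := by
    refine inv_eq_right_inv ?_
    rw [Matrix.smul_mul, Matrix.mul_smul, Matrix.one_mul, smul_smul]
    norm_num
  have hpd : ((1 / 2 : ℝ) • (1 : Matrix ι ι ℝ)).PosDef := PosDef.one.smul (by norm_num)
  obtain ⟨-, hfin, -⟩ := wS_mass hn hpd
  set g : (Sym2 ι → ℝ) → ℝ := fun x => (symMat x).det ^ (n / 2 - ((Fintype.card ι : ℝ) + 1) / 2) *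
    Real.exp (-(symMat x).trace) with hg
  have hgm : Measurable g := by
    have h1 : Measurable fun x : Sym2 ι → ℝ => (symMat x).det := continuous_det_toM.measurable
    have h2 : Measurable fun x : Sym2 ι → ℝ => (symMat x).trace := continuous_trace_toM.measurable
    exact (h1.pow_const _).mul h2.neg.exp
  have hms : MeasurableSet (posCone ι) := measurableSet_pd
  have hnn : ∀ x ∈ posCone ι, 0 ≤ g x := fun x hx => by
    have : 0 < (symMat x).det := PosDef.det_pos hx
    simp only [hg]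
    positivity
  have e1 : ∫⁻ x in posCone ι, ENNReal.ofReal (g x) = ∫⁻ x : Sym2 ι → ℝ, wS n ((1 / 2 : ℝ) • (1 : Matrix ι ι ℝ))⁻¹ x := by
    rw [← lintegral_indicator hms]
    refine lintegral_congr fun x => ?_
    by_cases hx : (toM x).PosDef
    · rw [indicator_of_mem (show x ∈ posCone ι from hx), wS_of_pd hx, hP]
      simp only [hg]
      congr 3
      · ring
      · rw [symMat_eq, Matrix.smul_mul, Matrix.one_mul, trace_smul, smul_eq_mul]; ring
    · rw [indicator_of_notMem (show x ∉ posCone ι from hx), wS_of_not hx]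
  have hae : 0 ≤ᵐ[volume.restrict (posCone ι)] g :=
    (ae_restrict_iff' hms).2 (Filter.Eventually.of_forall fun x hx => hnn x hx)
  have hint : Integrable g (volume.restrict (posCone ι)) := by
    refine ⟨hgm.aestronglyMeasurable, ?_⟩
    rw [hasFiniteIntegral_iff_ofReal hae, e1]
    exact hfin.lt_top
  unfold mvGamma
  rw [ofReal_integral_eq_lintegral_ofReal hint hae, e1]

lemma gamma_nonneg (β : ℝ) : 0 ≤ mvGamma ι β := by
  unfold mvGamma
  refine setIntegral_nonneg measurableSet_pd fun x hx => ?_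
  have : 0 < (symMat x).det := PosDef.det_pos hx
  positivity

lemma const_eq {n : ℝ} (hn : (Fintype.card ι : ℝ) - 1 < n) {S : Matrix ι ι ℝ} (hS : S.PosDef) :
    ENNReal.ofReal (((2 : ℝ) • S).det ^ (n / 2) * mvGamma ι (n / 2)) = ∫⁻ x, wS n S⁻¹ x := by
  have hpd : ((1 / 2 : ℝ) • (1 : Matrix ι ι ℝ)).PosDef := PosDef.one.smul (by norm_num)
  have hd := hS.det_pos
  have h2S : 0 < ((2 : ℝ) • S).det := by rw [det_smul]; positivity
  rw [ENNReal.ofReal_mul (by positivity), gamma_lint hn, (wS_mass hn hpd).2.2, (wS_mass hn hS).2.2,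
    ← mul_assoc, ← ENNReal.ofReal_mul (by positivity), det_smul, det_smul, det_one, mul_one]
  congr 2
  rw [← Real.mul_rpow (by positivity) (by positivity)]
  congr 1
  have : ((2:ℝ) ^ Fintype.card ι) * (1/2) ^ Fintype.card ι = 1 := by
    rw [← mul_pow]; norm_num
  linear_combination S.det * this

lemma density_eq {n : ℝ} (hn : (Fintype.card ι : ℝ) - 1 < n) {S : Matrix ι ι ℝ} (hS : S.PosDef)
    (x : Sym2 ι → ℝ) :
    ENNReal.ofReal (wishartDensity n S x) = (∫⁻ x, wS n S⁻¹ x)⁻¹ * wS n S⁻¹ x := by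
  obtain ⟨hM0, hMt, -⟩ := wS_mass hn hS
  have hc := const_eq hn hS
  have hC : 0 < ((2 : ℝ) • S).det ^ (n / 2) * mvGamma ι (n / 2) := by
    rw [← ENNReal.ofReal_pos, hc]
    exact pos_iff_ne_zero.2 hM0
  unfold wishartDensity
  by_cases hx : (toM x).PosDef
  · rw [indicator_of_mem (show x ∈ posCone ι from hx), wS_of_pd hx, ENNReal.ofReal_div_of_pos hC, hc,
      ENNReal.div_eq_inv_mul]
    congr 4
    · ring
    · rw [symMat_eq, Matrix.smul_mul, trace_smul, smul_eq_mul]; ring
  · rw [indicator_of_notMem (show x ∉ posCone ι from hx), wS_of_not hx]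
    simp

lemma measurable_density {n : ℝ} (hn : (Fintype.card ι : ℝ) - 1 < n) {S : Matrix ι ι ℝ} (hS : S.PosDef) :
    Measurable fun x => ENNReal.ofReal (wishartDensity n S x) := by
  simp only [density_eq hn hS]
  exact (measurable_wS n _).const_mul _

lemma lint_wishart {n : ℝ} (hn : (Fintype.card ι : ℝ) - 1 < n) {S : Matrix ι ι ℝ} (hS : S.PosDef)
    {h : (Sym2 ι → ℝ) → ℝ≥0∞} (hh : Measurable h) :
    ∫⁻ x, h x ∂(wishart n S) = (∫⁻ x, wS n S⁻¹ x * h x) / ∫⁻ x, wS n S⁻¹ x := by
  obtain ⟨hM0, hMt, -⟩ := wS_mass hn hS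
  unfold wishart
  rw [lintegral_withDensity_eq_lintegral_mul _ (measurable_density hn hS) hh, ENNReal.div_eq_inv_mul,
    ← lintegral_const_mul' _ _ (ENNReal.inv_ne_top.2 hM0)]
  refine lintegral_congr fun x => ?_
  rw [Pi.mul_apply, density_eq hn hS, mul_assoc]

end aux

/-- **The product inequality for determinants of Wishart diagonal blocks.** -/
theorem result (d : ℕ) (p : Fin d → ℕ) (_hd : 1 ≤ d) (hp : ∀ i, 1 ≤ p i) (α : ℝ)
    (hα : ((∑ i, p i : ℕ) : ℝ) - 1 < α) (S : Matrix (Idx p) (Idx p) ℝ) (hS : S.PosDef)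
    (ν : Fin d → ℝ) (hν : ∀ i, 0 ≤ ν i) :
    IsProbabilityMeasure (wishart α S) ∧
      (∀ i, Integrable (fun x => (diagBlock i (symMat x)).det ^ ν i) (wishart α S)) ∧
      Integrable (fun x => ∏ i, (diagBlock i (symMat x)).det ^ ν i) (wishart α S) ∧
      ∏ i, ∫ x, (diagBlock i (symMat x)).det ^ ν i ∂(wishart α S) ≤
        ∫ x, ∏ i, (diagBlock i (symMat x)).det ^ ν i ∂(wishart α S) := by
  have hcard : (Fintype.card (Idx p) : ℝ) = ((∑ i, p i : ℕ) : ℝ) := by
    simp [Fintype.card_sigma]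
  have hn : (Fintype.card (Idx p) : ℝ) - 1 < α := by rw [hcard]; exact hα
  obtain ⟨hM0, hMt, -⟩ := wS_mass hn hS
  have hblk : ∀ (i : Fin d) (x : Sym2 (Idx p) → ℝ), (diagBlock i (symMat x)).det = mnr (Sigma.mk i) x :=
    fun i x => rfl
  have hmeas : ∀ i, Measurable fun x : Sym2 (Idx p) → ℝ => mnr (Sigma.mk i) x := by
    intro i
    exact ((continuous_toM.matrix_submatrix (Sigma.mk i) (Sigma.mk i)).matrix_det).measurable
  have hcone : ∀ᵐ x ∂(wishart α S), (toM x).PosDef := by
    unfold wishart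
    rw [ae_withDensity_iff (measurable_density hn hS)]
    refine Filter.Eventually.of_forall fun x hx => ?_
    by_contra hcon
    apply hx
    rw [density_eq hn hS, wS_of_not hcon, mul_zero]
  have hnn : ∀ i, 0 ≤ᵐ[wishart α S] fun x => mnr (Sigma.mk i) x ^ ν i := by
    intro i
    filter_upwards [hcone] with x hx
    exact Real.rpow_nonneg (mnr_pos sigma_mk_injective hx).le _
  have hnn2 : 0 ≤ᵐ[wishart α S] fun x => ∏ i, mnr (Sigma.mk i) x ^ ν i := by
    filter_upwards [hcone] with x hx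
    exact Finset.prod_nonneg fun i _ => Real.rpow_nonneg (mnr_pos sigma_mk_injective hx).le _
  have hm1 : ∀ i, Measurable fun x : Sym2 (Idx p) → ℝ => mnr (Sigma.mk i) x ^ ν i :=
    fun i => (hmeas i).pow_const _
  have hm2 : Measurable fun x : Sym2 (Idx p) → ℝ => ∏ i, mnr (Sigma.mk i) x ^ ν i :=
    Finset.measurable_prod _ fun i _ => hm1 i
  -- finiteness
  have hf1 : ∀ i, ∫⁻ x, wS α S⁻¹ x * ENNReal.ofReal (mnr (Sigma.mk i) x ^ ν i) ≠ ⊤ := by
    intro i
    have := wS_fin (J := Unit) (m := fun _ => Fin (p i)) hn hS (νs := fun _ => ν i) (fun _ => hν i)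
      (fun _ k => (⟨i, k⟩ : Idx p))
    simpa using this
  have hf2 : ∫⁻ x, wS α S⁻¹ x * ENNReal.ofReal (∏ i, mnr (Sigma.mk i) x ^ ν i) ≠ ⊤ :=
    wS_fin (J := Fin d) (m := fun i => Fin (p i)) hn hS hν (fun i k => (⟨i, k⟩ : Idx p))
  have hl1 : ∀ i, ∫⁻ x, ENNReal.ofReal (mnr (Sigma.mk i) x ^ ν i) ∂(wishart α S)
      = (∫⁻ x, wS α S⁻¹ x * ENNReal.ofReal (mnr (Sigma.mk i) x ^ ν i)) / ∫⁻ x, wS α S⁻¹ x :=
    fun i => lint_wishart hn hS (ENNReal.measurable_ofReal.comp (hm1 i))
  have hl2 : ∫⁻ x, ENNReal.ofReal (∏ i, mnr (Sigma.mk i) x ^ ν i) ∂(wishart α S)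
      = (∫⁻ x, wS α S⁻¹ x * ENNReal.ofReal (∏ i, mnr (Sigma.mk i) x ^ ν i)) / ∫⁻ x, wS α S⁻¹ x :=
    lint_wishart hn hS (ENNReal.measurable_ofReal.comp hm2)
  have hi1 : ∀ i, Integrable (fun x => mnr (Sigma.mk i) x ^ ν i) (wishart α S) := by
    intro i
    refine ⟨(hm1 i).aestronglyMeasurable, ?_⟩
    rw [hasFiniteIntegral_iff_ofReal (hnn i), hl1]
    exact (ENNReal.div_ne_top (hf1 i) hM0).lt_top
  have hi2 : Integrable (fun x => ∏ i, mnr (Sigma.mk i) x ^ ν i) (wishart α S) := by
    refine ⟨hm2.aestronglyMeasurable, ?_⟩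
    rw [hasFiniteIntegral_iff_ofReal hnn2, hl2]
    exact (ENNReal.div_ne_top hf2 hM0).lt_top
  simp only [hblk]
  refine ⟨⟨?_⟩, hi1, hi2, ?_⟩
  · have := lint_wishart hn hS (h := fun _ => 1) measurable_const
    simp only [mul_one, lintegral_one] at this
    rw [this, ENNReal.div_self hM0 hMt]
  · have key := prod_ineq p hp hα hS hν Finset.univ
    simp only [← hl1, ← hl2] at key
    have h3 : ∀ i, ∫ x, mnr (Sigma.mk i) x ^ ν i ∂(wishart α S)
        = (∫⁻ x, ENNReal.ofReal (mnr (Sigma.mk i) x ^ ν i) ∂(wishart α S)).toReal :=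
      fun i => integral_eq_lintegral_of_nonneg_ae (hnn i) (hm1 i).aestronglyMeasurable
    have h4 : ∫ x, ∏ i, mnr (Sigma.mk i) x ^ ν i ∂(wishart α S)
        = (∫⁻ x, ENNReal.ofReal (∏ i, mnr (Sigma.mk i) x ^ ν i) ∂(wishart α S)).toReal :=
      integral_eq_lintegral_of_nonneg_ae hnn2 hm2.aestronglyMeasurable
    simp only [h3]
    rw [h4, ← ENNReal.toReal_prod]
    refine ENNReal.toReal_mono ?_ key
    rw [hl2]
    exact ENNReal.div_ne_top hf2 hM0

end Pool.Agent.Results.MP_9d9c13_pr.WishartProductInequality
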